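import Pool.Agent.helper74.FD.SpecF

/-!
# MP_07c750 (QUE), project FD, row STP: one step of the fractal uncertainty principle
-/

set_option autoImplicit false

open MeasureTheory Filter Set
open scoped ContDiff Topology ComplexConjugate

namespace Pool.Agent.FD

theorem STP_tail (φ : ℝ → ℝ) (hφ : Integrable φ) (h0 : ∀ x, 0 ≤ φ x) (τ ν : ℝ) (hτ : 0 < τ) (hν : 0 < ν) :
    ∃ Λ : ℝ, 1 ≤ Λ ∧ ∫ y in {y : ℝ | ν * Λ / 8 ≤ |y|}, φ y ≤ τ := by
  have hm : ∀ a : ℝ, MeasurableSet {y : ℝ | a ≤ |y|} := fun a => measurableSet_le measurable_const continuous_abs.measurable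
  have h1 := tendsto_setIntegral_of_antitone (μ := volume) (f := φ) (s := fun n : ℕ => {y : ℝ | (n : ℝ) ≤ |y|})
    (fun n => hm n) (fun a b hab y (hy : (b : ℝ) ≤ |y|) => le_trans (Nat.cast_le.2 hab) hy) ⟨0, hφ.integrableOn⟩
  have h2 : (⋂ n : ℕ, {y : ℝ | (n : ℝ) ≤ |y|}) = ∅ := by
    rw [eq_empty_iff_forall_notMem]
    intro y hy
    rw [mem_iInter] at hy
    obtain ⟨n, hn⟩ := exists_nat_gt |y|
    exact absurd (hy n) (not_le.2 hn)
  rw [h2, Measure.restrict_empty, integral_zero_measure] at h1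
  obtain ⟨n, hn⟩ := ((tendsto_order.1 h1).2 τ hτ).exists
  refine ⟨max 1 (8 * n / ν), le_max_left _ _, ?_⟩
  refine le_trans ?_ hn.le
  refine setIntegral_mono_set hφ.integrableOn (ae_of_all _ h0) (HasSubset.Subset.eventuallyLE ?_)
  intro y hy
  have h3 : ν * max 1 (8 * n / ν) / 8 ≤ |y| := hy
  refine le_trans ?_ h3
  have h4 : ν * (8 * n / ν) / 8 = (n : ℝ) := by field_simp
  calc (n : ℝ) = ν * (8 * n / ν) / 8 := h4.symm
    _ ≤ ν * max 1 (8 * n / ν) / 8 := by
      have := mul_le_mul_of_nonneg_left (le_max_right 1 (8 * n / ν)) hν.le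
      linarith

theorem STP_proof (hFT1 : FT1_stmt) (hSCF : SCF_stmt) (hPRF : PRF_stmt) (hBM3 : BM3_stmt) (hMUL : MUL_stmt) (hOSI : OSI_stmt) :
    STP_stmt := by
  intro ν hν hν4
  obtain ⟨c, hc, hc1, hO⟩ := hOSI (ν / 4) (by linarith) (by linarith)
  obtain ⟨K, φ, C, hK, hK1, hφK, hφc, hφ0, hφC, hφi, hφ1⟩ := hBM3
  obtain ⟨Λ, hΛ, htail⟩ := STP_tail φ hφi hφ0 (c / 16) ν (by linarith) hν
  refine ⟨Λ, c, hΛ, hc, hc1, ?_⟩
  intro s X Y f hs hX hf hY hj
  choose u hu1 hu2 hu3 using hj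
  have hB : 0 < Λ / s := by positivity
  set V : Set ℝ := ⋃ j : ℤ, Ioo (u j + ν * s / 8) (u j + 7 * ν * s / 8) with hV
  have hVm : MeasurableSet V := MeasurableSet.iUnion fun j => measurableSet_Ioo
  obtain ⟨hwc, hw01, hwX, hwlo, hwup⟩ := hMUL K φ C hK hK1 hφK hφc hφ0 hφC hφi hφ1 (Λ / s) Vᶜ hB hVm.compl
  set w : ℝ → ℝ := cut φ (Λ / s) Vᶜ with hw
  have hCX := hwX X f hf
  have hBd : Λ / s * (ν * s / 8) = ν * Λ / 8 := by field_simp
  have hd0 : 0 ≤ ν * s / 8 := by positivity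
  have hνs : 0 < ν * s := by positivity
  -- on `Y`
  have hYw : ∀ x ∈ Y, 1 - c / 16 ≤ w x := by
    intro x hx
    refine le_trans ?_ (hwlo x (ν * s / 8) hd0 ?_)
    · rw [hBd]
      linarith
    · intro t ht
      rw [mem_compl_iff, not_not, hV, mem_iUnion] at ht
      obtain ⟨j, hj1, hj2⟩ := ht
      have h1 := hu3 j x hx
      rw [not_and_or, not_le, not_le] at h1
      rcases h1 with h1 | h1
      · rw [abs_sub_comm]
        refine le_trans ?_ (le_abs_self _)
        linarith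
      · refine le_trans ?_ (le_abs_self _)
        linarith
  -- the middle parts of the holes
  set Mi : Set ℝ := ⋃ j : ℤ, Icc (u j + 3 * ν * s / 8) (u j + 5 * ν * s / 8) with hMi
  have hMm : MeasurableSet Mi := MeasurableSet.iUnion fun j => measurableSet_Icc
  have hMw : ∀ x ∈ Mi, w x ≤ c / 16 := by
    intro x hx
    rw [hMi, mem_iUnion] at hx
    obtain ⟨j, hj1, hj2⟩ := hx
    refine (hwup x (ν * s / 8) hd0 ?_).trans ?_
    · intro t ht
      rw [mem_compl_iff, hV, mem_iUnion, not_exists] at ht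
      have h1 := ht j
      rw [mem_Ioo, not_and_or, not_lt, not_lt] at h1
      rcases h1 with h1 | h1
      · refine le_trans ?_ (le_abs_self _)
        linarith
      · rw [abs_sub_comm]
        refine le_trans ?_ (le_abs_self _)
        linarith
    · rw [hBd]
      exact htail
  obtain ⟨_, _, _, _, _, _, hfi, _, _⟩ := hFT1 X f hf
  obtain ⟨_, _, _, _, _, _, hfi', _, _⟩ := hFT1 _ _ hCX
  have hnn : ∀ x, ‖((w x : ℝ) : ℂ) * f x‖ ^ 2 = w x ^ 2 * ‖f x‖ ^ 2 := by
    intro x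
    rw [norm_mul, mul_pow, Complex.norm_real, Real.norm_eq_abs, sq_abs]
  refine ⟨fun x => ((w x : ℝ) : ℂ) * f x, hCX, ?_, ?_⟩
  · -- the total mass
    have hM1 : c * ∫ x, ‖f x‖ ^ 2 ≤ ∫ x in Mi, ‖f x‖ ^ 2 := by
      have h1 := hSCF.1 X f s hs hf
      have h2 : Por (ν / 4) 1 (dil s X) := by
        have h3 := hPRF.2.1 (ν / 2) s⁻¹ s X hs hX
        rw [mul_inv_cancel₀ hs.ne'] at h3
        exact hPRF.2.2.2.2.1 (ν / 2) (ν / 4) 1 1 (dil s X) (dil s X) (by linarith) (by linarith) zero_le_one le_rfl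
          subset_rfl h3
      have h4 := hO (dil s X) (fun x => f (s * x)) (fun j => u j / s + 3 * ν / 8) h2 h1 (by
        intro j
        have h5 : (j : ℝ) ≤ u j / s := by
          rw [le_div_iff₀ hs]
          exact hu1 j
        have h6 : u j / s + ν ≤ j + 1 := by
          have h7 : u j / s + ν = (u j + ν * s) / s := by field_simp
          rw [h7, div_le_iff₀ hs]
          exact hu2 j
        constructor
        · linarith
        · linarith)
      have h5 := hSCF.2.2.2 f s univ hs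
      have h6 := hSCF.2.2.2 f s Mi hs
      have h7 : {x : ℝ | s * x ∈ (univ : Set ℝ)} = univ := by
        ext x
        exact ⟨fun _ => mem_univ _, fun _ => mem_univ _⟩
      rw [h7, setIntegral_univ, setIntegral_univ] at h5
      have h8 : {x : ℝ | s * x ∈ Mi} = {x | ∃ j : ℤ, u j / s + 3 * ν / 8 ≤ x ∧ x ≤ u j / s + 3 * ν / 8 + ν / 4} := by
        ext x
        rw [mem_setOf_eq, hMi, mem_iUnion, mem_setOf_eq]
        refine exists_congr fun j => ?_
        rw [mem_Icc]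
        have h9 : u j / s + 3 * ν / 8 = (u j + 3 * ν * s / 8) / s := by field_simp
        have h10 : u j / s + 3 * ν / 8 + ν / 4 = (u j + 5 * ν * s / 8) / s := by
          field_simp
          ring
        rw [h10, h9, div_le_iff₀ hs, le_div_iff₀ hs, mul_comm x s]
      rw [h8] at h6
      rw [h5, h6] at h4
      have h9 : 0 < s⁻¹ := inv_pos.2 hs
      have h10 : s⁻¹ * (c * ∫ x, ‖f x‖ ^ 2) ≤ s⁻¹ * ∫ x in Mi, ‖f x‖ ^ 2 := by linarith
      exact le_of_mul_le_mul_left h10 h9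
    have hfpos : 0 ≤ ∫ x, ‖f x‖ ^ 2 := integral_nonneg fun x => by positivity
    have hspl := integral_add_compl (f := fun x => ‖f x‖ ^ 2) hMm hfi
    have hspl' := integral_add_compl (f := fun x => ‖((w x : ℝ) : ℂ) * f x‖ ^ 2) hMm hfi'
    have hA : ∫ x in Mi, ‖((w x : ℝ) : ℂ) * f x‖ ^ 2 ≤ (c / 16) ^ 2 * ∫ x in Mi, ‖f x‖ ^ 2 := by
      rw [← integral_const_mul]
      refine setIntegral_mono_on hfi'.integrableOn (hfi.const_mul _).integrableOn hMm fun x hx => ?_
      rw [hnn]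
      refine mul_le_mul_of_nonneg_right ?_ (by positivity)
      exact pow_le_pow_left₀ (hw01 x).1 (hMw x hx) 2
    have hAc : ∫ x in Miᶜ, ‖((w x : ℝ) : ℂ) * f x‖ ^ 2 ≤ ∫ x in Miᶜ, ‖f x‖ ^ 2 := by
      refine setIntegral_mono_on hfi'.integrableOn hfi.integrableOn hMm.compl fun x hx => ?_
      rw [hnn]
      refine mul_le_of_le_one_left (by positivity) ?_
      exact pow_le_one₀ (hw01 x).1 (hw01 x).2
    have hMpos : 0 ≤ ∫ x in Mi, ‖f x‖ ^ 2 := integral_nonneg fun x => by positivity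
    rw [← hspl']
    have h11 : (c / 16) ^ 2 ≤ 1 / 2 := by
      have : c / 16 ≤ 1 / 2 := by linarith
      nlinarith
    have h12 : (c / 16) ^ 2 * ∫ x in Mi, ‖f x‖ ^ 2 ≤ 1 / 2 * ∫ x in Mi, ‖f x‖ ^ 2 := mul_le_mul_of_nonneg_right h11 hMpos
    linarith
  · -- on `Y`
    rw [← integral_const_mul]
    refine setIntegral_mono_on (hfi.const_mul _).integrableOn hfi'.integrableOn hY fun x hx => ?_
    rw [hnn]
    refine mul_le_mul_of_nonneg_right ?_ (by positivity)
    exact pow_le_pow_left₀ (by linarith) (hYw x hx) 2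

end Pool.Agent.FD
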