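import Pool.Agent.helper74.FD.SpecG

/-!
# MP_07c750 (QUE), project FD, row UCN: uniform continuity
-/

set_option autoImplicit false

open scoped MatrixGroups ContDiff Topology UpperHalfPlane ComplexConjugate
open UpperHalfPlane MeasureTheory Filter Set

namespace Pool.Agent.FD

open Pool.Agent.RS Pool.Agent.MS
open Pool.Agent.EN (XG MG mkX mkM fl pr)

theorem UCN_tend (h : ℕ → SL(2, ℝ)) (hh : ∀ n : ℕ, near1 (1 / ((n : ℝ) + 1)) (h n)) : Tendsto h atTop (𝓝 1) := by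
  have h0 : Tendsto (fun n : ℕ => 1 / ((n : ℝ) + 1)) atTop (𝓝 0) := tendsto_one_div_add_atTop_nhds_zero_nat
  have hI : Topology.IsInducing (fun A : SL(2, ℝ) => (A.1 : Matrix (Fin 2) (Fin 2) ℝ)) := ⟨rfl⟩
  refine hI.tendsto_nhds_iff.2 ?_
  refine tendsto_pi_nhds.2 fun i => tendsto_pi_nhds.2 fun j => ?_
  rw [tendsto_iff_norm_sub_tendsto_zero]
  refine squeeze_zero (fun n => norm_nonneg _) (fun n => ?_) h0
  obtain ⟨h1, h2, h3, h4⟩ := hh n
  rw [Real.norm_eq_abs]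
  change |(h n).1 i j - (1 : SL(2, ℝ)).1 i j| ≤ _
  fin_cases i <;> fin_cases j
  · simpa using h1
  · simpa using h3
  · simpa using h4
  · simpa using h2

theorem UCN_proof (hGLC : RS.GLC_stmt) : UCN_stmt := by
  intro Γ θ hΓ hθ ε hε
  obtain ⟨K, hK, hcov⟩ := hΓ.cocompact
  have hK' : IsCompact {g : SL(2, ℝ) | g • I ∈ K} := hGLC.2.2.1 K hK
  have hev : ∀ᶠ h : SL(2, ℝ) in 𝓝 1, ∀ g ∈ {g : SL(2, ℝ) | g • I ∈ K}, |θ (g * h) - θ g| < ε := by
    refine hK'.eventually_forall_of_forall_eventually fun g _ => ?_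
    have hc : Continuous fun z : SL(2, ℝ) × SL(2, ℝ) => |θ (z.2 * z.1) - θ z.2| :=
      ((hθ.1.comp (continuous_snd.mul continuous_fst)).sub (hθ.1.comp continuous_snd)).abs
    have h1 : |θ (g * 1) - θ g| < ε := by
      rw [mul_one, sub_self, abs_zero]
      exact hε
    exact (hc.tendsto (1, g)).eventually_lt_const h1
  by_contra hcon
  push Not at hcon
  have hc : ∀ n : ℕ, ∃ g h : SL(2, ℝ), near1 (1 / ((n : ℝ) + 1)) h ∧ ε < |θ (g * h) - θ g| := by
    intro n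
    refine hcon (1 / ((n : ℝ) + 1)) (by positivity) ?_
    rw [div_le_one (by positivity)]
    have : (0 : ℝ) ≤ n := Nat.cast_nonneg n
    linarith
  choose g h hn hlt using hc
  obtain ⟨n, hn'⟩ := ((UCN_tend h hn).eventually hev).exists
  obtain ⟨γ, hγ⟩ := hcov (g n • I)
  have h1 := hn' ((γ : SL(2, ℝ)) * g n) (by
    change ((γ : SL(2, ℝ)) * g n) • I ∈ K
    rw [mul_smul]
    exact hγ)
  rw [mul_assoc, hθ.2 γ, hθ.2 γ] at h1
  exact absurd (hlt n) (not_lt.2 h1.le)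

end Pool.Agent.FD
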